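import Pool.Agent.helper22.DL.SpecE3

/-! # Module dl:ETF -/

namespace Pool.Agent.DL

open Matrix Complex MeasureTheory Set Filter Topology
open scoped ComplexOrder Manifold ContDiff ComplexConjugate

noncomputable section

/-- `∂ e^M = e^M ∂M` -/
theorem ETF_dz_exp (M : ℂ → ℝ) (w : ℂ) (h : DifferentiableAt ℝ M w) :
    dz (fun v => ((Real.exp (M v) : ℝ) : ℂ)) w =
      ((Real.exp (M w) : ℝ) : ℂ) * dz (fun v => ((M v : ℝ) : ℂ)) w := by
  have h1 : HasFDerivAt (fun v => ((M v : ℝ) : ℂ)) (Complex.ofRealCLM.comp (fderiv ℝ M w)) w :=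
    Complex.ofRealCLM.hasFDerivAt.comp w h.hasFDerivAt
  have h2 : HasFDerivAt (fun v => ((Real.exp (M v) : ℝ) : ℂ))
      (Complex.ofRealCLM.comp (Real.exp (M w) • fderiv ℝ M w)) w :=
    Complex.ofRealCLM.hasFDerivAt.comp w h.hasFDerivAt.exp
  unfold dz
  rw [h1.fderiv, h2.fderiv]
  simp only [ContinuousLinearMap.comp_apply, ContinuousLinearMap.smul_apply, smul_eq_mul,
    Complex.ofRealCLM_apply, Complex.ofReal_mul]
  ring

theorem ETF_dz_neg (f : ℂ → ℂ) (w : ℂ) : dz (fun v => -f v) w = -dz f w := by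
  unfold dz
  have h : fderiv ℝ (fun v => -f v) w = -fderiv ℝ f w := fderiv_fun_neg
  rw [h]
  simp only [ContinuousLinearMap.neg_apply]
  ring

theorem ETF_dzb_neg (f : ℂ → ℂ) (w : ℂ) : dzb (fun v => -f v) w = -dzb f w := by
  unfold dzb
  have h : fderiv ℝ (fun v => -f v) w = -fderiv ℝ f w := fderiv_fun_neg
  rw [h]
  simp only [ContinuousLinearMap.neg_apply]
  ring

theorem ETF_dz_const (c w : ℂ) : dz (fun _ => c) w = 0 := by
  unfold dz
  simp

theorem ETF_dzb_const (c w : ℂ) : dzb (fun _ => c) w = 0 := by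
  unfold dzb
  simp

theorem ETF_mdz_diag (f : ℂ → Fin 3 → ℂ) (w : ℂ) :
    mdz (fun z => diagonal (f z)) w = diagonal (fun i => dz (fun z => f z i) w) := by
  ext a b
  by_cases h : a = b
  · subst h
    simp [mdz]
  · rw [diagonal_apply_ne _ h]
    show dz (fun z => diagonal (f z) a b) w = 0
    simp only [diagonal_apply_ne _ h]
    exact ETF_dz_const 0 w

theorem ETF_mdzb_diag (f : ℂ → Fin 3 → ℂ) (w : ℂ) :
    mdzb (fun z => diagonal (f z)) w = diagonal (fun i => dzb (fun z => f z i) w) := by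
  ext a b
  by_cases h : a = b
  · subst h
    simp [mdzb]
  · rw [diagonal_apply_ne _ h]
    show dzb (fun z => diagonal (f z) a b) w = 0
    simp only [diagonal_apply_ne _ h]
    exact ETF_dzb_const 0 w

theorem ETF_mdzb_congr {F G : ℂ → Matrix (Fin 3) (Fin 3) ℂ} {z : ℂ} (h : F =ᶠ[𝓝 z] G) :
    mdzb F z = mdzb G z := by
  ext a b
  show dzb (fun w => F w a b) z = dzb (fun w => G w a b) z
  have h1 : (fun w => F w a b) =ᶠ[𝓝 z] fun w => G w a b := h.mono fun w hw => by
    show F w a b = G w a b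
    rw [hw]
  unfold dzb
  rw [h1.fderiv_eq]

/-- inverse of the diagonal metric -/
theorem ETF_inv (E F : ℂ) (hEF : E * F = 1) :
    (diagonal ![E, F, 1] : Matrix (Fin 3) (Fin 3) ℂ)⁻¹ = diagonal ![F, E, 1] := by
  refine Matrix.inv_eq_left_inv ?_
  rw [diagonal_mul_diagonal, ← diagonal_one]
  congr 1
  funext i
  fin_cases i
  · show F * E = 1
    rw [mul_comm, hEF]
  · show E * F = 1
    exact hEF
  · show (1 : ℂ) * 1 = 1
    ring

/-- the commutator -/
theorem ETF_comm (E F s q : ℂ) (hE : conj E = E) (hF : conj F = F) (hEF : E * F = 1) :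
    (!![s, q, 0; 1, s, 0; 0, 0, -2 * s] : Matrix (Fin 3) (Fin 3) ℂ) *
        adj (diagonal ![E, F, 1]) !![s, q, 0; 1, s, 0; 0, 0, -2 * s] -
      adj (diagonal ![E, F, 1]) !![s, q, 0; 1, s, 0; 0, 0, -2 * s] *
        !![s, q, 0; 1, s, 0; 0, 0, -2 * s] =
      diagonal ![q * conj q * E ^ 2 - F ^ 2, -(q * conj q * E ^ 2 - F ^ 2), 0] := by
  have h1 : adj (diagonal ![E, F, 1]) !![s, q, 0; 1, s, 0; 0, 0, -2 * s] =
      !![conj s, F ^ 2, 0; conj q * E ^ 2, conj s, 0; 0, 0, -2 * conj s] := by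
    unfold adj
    rw [ETF_inv E F hEF]
    ext i j
    fin_cases i <;> fin_cases j <;>
      simp [Matrix.mul_apply, Fin.sum_univ_three, Matrix.diagonal, conjTranspose_apply] <;>
      first
        | linear_combination conj s * hEF
        | exact Or.inl (map_ofNat _ 2)
        | ring1
  rw [h1]
  ext i j
  fin_cases i <;> fin_cases j <;>
    simp [Matrix.mul_apply, Fin.sum_univ_three, Matrix.diagonal] <;> ring

/-- ETF -/
theorem ETF (hLW : LW_stmt) (hLA : LA_stmt) : ETF_stmt := by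
  intro Ω W q s L hΩ hq hs hSY
  set M : ℂ → ℝ := fun z => (L z + Real.log 2) / 2 with hM
  have hMd : ContDiffOn ℝ 2 M Ω := (hSY.sL.add contDiffOn_const).div_const 2
  have he1 : ContDiffOn ℝ 2 (fun z => ((Real.exp (M z) : ℝ) : ℂ)) Ω :=
    Complex.ofRealCLM.contDiff.comp_contDiffOn (Real.contDiff_exp.comp_contDiffOn hMd)
  have he2 : ContDiffOn ℝ 2 (fun z => ((Real.exp (-(M z)) : ℝ) : ℂ)) Ω :=
    Complex.ofRealCLM.contDiff.comp_contDiffOn (Real.contDiff_exp.comp_contDiffOn hMd.neg)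
  have hEF : ∀ z, ((Real.exp (M z) : ℝ) : ℂ) * ((Real.exp (-(M z)) : ℝ) : ℂ) = 1 := by
    intro z
    rw [← Complex.ofReal_mul, ← Real.exp_add, add_neg_cancel, Real.exp_zero, Complex.ofReal_one]
  have hdiff : ∀ z ∈ Ω, DifferentiableAt ℝ M z := fun z hz =>
    ((hMd.contDiffAt (hΩ.mem_nhds hz)).differentiableAt (by norm_num))
  refine ⟨?_, ?_, ?_⟩
  · intro z hz
    refine Matrix.PosDef.diagonal ?_
    intro i
    fin_cases i
    · show (0 : ℂ) < ((Real.exp (M z) : ℝ) : ℂ)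
      exact_mod_cast Real.exp_pos _
    · show (0 : ℂ) < ((Real.exp (-(M z)) : ℝ) : ℂ)
      exact_mod_cast Real.exp_pos _
    · show (0 : ℂ) < 1
      exact zero_lt_one
  · intro a b
    fin_cases a <;> fin_cases b
    · exact he1
    · exact contDiffOn_const
    · exact contDiffOn_const
    · exact contDiffOn_const
    · exact he2
    · exact contDiffOn_const
    · exact contDiffOn_const
    · exact contDiffOn_const
    · exact contDiffOn_const
  · intro z hz
    -- the left side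
    have hleft : ∀ w ∈ Ω, (diagonal ![((Real.exp (M w) : ℝ) : ℂ), ((Real.exp (-(M w)) : ℝ) : ℂ), 1] :
          Matrix (Fin 3) (Fin 3) ℂ)⁻¹ *
        mdz (fun z => diagonal ![((Real.exp (M z) : ℝ) : ℂ), ((Real.exp (-(M z)) : ℝ) : ℂ), 1]) w =
        diagonal ![dz (fun v => ((M v : ℝ) : ℂ)) w, -dz (fun v => ((M v : ℝ) : ℂ)) w, 0] := by
      intro w hw
      rw [ETF_inv _ _ (hEF w), ETF_mdz_diag, diagonal_mul_diagonal]
      congr 1
      funext i
      fin_cases i
      · show ((Real.exp (-(M w)) : ℝ) : ℂ) * dz (fun z => ((Real.exp (M z) : ℝ) : ℂ)) w =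
          dz (fun v => ((M v : ℝ) : ℂ)) w
        rw [ETF_dz_exp M w (hdiff w hw)]
        linear_combination dz (fun v => ((M v : ℝ) : ℂ)) w * hEF w
      · show ((Real.exp (M w) : ℝ) : ℂ) * dz (fun z => ((Real.exp (-(M z)) : ℝ) : ℂ)) w =
          -dz (fun v => ((M v : ℝ) : ℂ)) w
        have e1 := ETF_dz_exp (fun z => -(M z)) w (hdiff w hw).neg
        have e2 : dz (fun v => ((-(M v) : ℝ) : ℂ)) w = -dz (fun v => ((M v : ℝ) : ℂ)) w := by
          rw [← ETF_dz_neg]
          congr 1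
          funext v
          push_cast
          ring
        rw [e1, e2]
        linear_combination -(dz (fun v => ((M v : ℝ) : ℂ)) w) * hEF w
      · show (1 : ℂ) * dz (fun _ => (1 : ℂ)) w = 0
        rw [ETF_dz_const, mul_zero]
    have hev : (fun w => (diagonal ![((Real.exp (M w) : ℝ) : ℂ), ((Real.exp (-(M w)) : ℝ) : ℂ), 1] :
          Matrix (Fin 3) (Fin 3) ℂ)⁻¹ *
        mdz (fun z => diagonal ![((Real.exp (M z) : ℝ) : ℂ), ((Real.exp (-(M z)) : ℝ) : ℂ), 1]) w)
        =ᶠ[𝓝 z] fun w => diagonal ![dz (fun v => ((M v : ℝ) : ℂ)) w,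
          -dz (fun v => ((M v : ℝ) : ℂ)) w, 0] := by
      filter_upwards [hΩ.mem_nhds hz] with w hw
      exact hleft w hw
    have hL : mdzb (fun w => (diagonal ![((Real.exp (M w) : ℝ) : ℂ), ((Real.exp (-(M w)) : ℝ) : ℂ), 1] :
          Matrix (Fin 3) (Fin 3) ℂ)⁻¹ *
        mdz (fun z => diagonal ![((Real.exp (M z) : ℝ) : ℂ), ((Real.exp (-(M z)) : ℝ) : ℂ), 1]) w) z =
        diagonal ![((lap M z : ℝ) : ℂ), -((lap M z : ℝ) : ℂ), 0] := by
      rw [ETF_mdzb_congr hev, ETF_mdzb_diag]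
      have hlw := hLW M z (hMd.contDiffAt (hΩ.mem_nhds hz))
      congr 1
      funext i
      fin_cases i
      · show dzb (fun w => dz (fun v => ((M v : ℝ) : ℂ)) w) z = _
        exact hlw.symm
      · show dzb (fun w => -dz (fun v => ((M v : ℝ) : ℂ)) w) z = _
        rw [ETF_dzb_neg, ← hlw]
        rfl
      · show dzb (fun _ => (0 : ℂ)) z = _
        rw [ETF_dzb_const]
        rfl
    -- the Laplacian
    have hlapM : lap M z = 1 / 2 * lap L z := by
      have e1 := hLA.1 L (fun _ => Real.log 2) z (1 / 2) (1 / 2)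
        (hSY.sL.contDiffAt (hΩ.mem_nhds hz)) contDiffAt_const
      have e2 : lap (fun _ => Real.log 2) z = 0 := by
        unfold lap
        simp [iteratedDeriv_const]
      have e3 : M = fun w => 1 / 2 * L w + 1 / 2 * Real.log 2 := by
        funext w
        rw [hM]
        ring
      rw [e3]
      rw [e2] at e1
      simpa using e1
    have hlapL := hSY.e1 z hz
    have hdzb0 : dzb (fun _ : ℂ => (0 : ℂ)) z = 0 := ETF_dzb_const 0 z
    rw [hdzb0] at hlapL
    have hRR : RR (2 * q z) 0 (L z) 0 = Real.exp (L z) * (4 * ‖q z‖ ^ 2) - Real.exp (-(L z)) := by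
      unfold RR xx yy
      simp
      ring
    rw [hRR] at hlapL
    have e2M : Real.exp (M z) ^ 2 = 2 * Real.exp (L z) := by
      rw [← Real.exp_nat_mul]
      have : ((2 : ℕ) : ℝ) * M z = Real.log 2 + L z := by
        rw [hM]
        push_cast
        ring
      rw [this, Real.exp_add, Real.exp_log (by norm_num)]
    have e2M' : Real.exp (-(M z)) ^ 2 = Real.exp (-(L z)) / 2 := by
      rw [← Real.exp_nat_mul]
      have : ((2 : ℕ) : ℝ) * (-(M z)) = -Real.log 2 + -(L z) := by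
        rw [hM]
        push_cast
        ring
      rw [this, Real.exp_add, Real.exp_neg (Real.log 2), Real.exp_log (by norm_num)]
      ring
    have hval : lap M z = W z * (‖q z‖ ^ 2 * Real.exp (M z) ^ 2 - Real.exp (-(M z)) ^ 2) := by
      rw [hlapM, hlapL, e2M, e2M']
      simp
      ring
    have hvalc : ((lap M z : ℝ) : ℂ) = ((W z : ℝ) : ℂ) * (q z * conj (q z) *
        ((Real.exp (M z) : ℝ) : ℂ) ^ 2 - ((Real.exp (-(M z)) : ℝ) : ℂ) ^ 2) := by
      rw [hval, Complex.mul_conj, Complex.normSq_eq_norm_sq]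
      push_cast
      ring
    have hc := ETF_comm ((Real.exp (M z) : ℝ) : ℂ) ((Real.exp (-(M z)) : ℝ) : ℂ) (s z) (q z)
      (Complex.conj_ofReal _) (Complex.conj_ofReal _) (hEF z)
    refine hL.trans ?_
    show _ = ((W z : ℝ) : ℂ) • (_ - _)
    rw [hc, ← diagonal_smul]
    congr 1
    funext i
    fin_cases i
    · show ((lap M z : ℝ) : ℂ) = ((W z : ℝ) : ℂ) * (q z * conj (q z) *
        ((Real.exp (M z) : ℝ) : ℂ) ^ 2 - ((Real.exp (-(M z)) : ℝ) : ℂ) ^ 2)
      exact hvalc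
    · show -((lap M z : ℝ) : ℂ) = ((W z : ℝ) : ℂ) * (-(q z * conj (q z) *
        ((Real.exp (M z) : ℝ) : ℂ) ^ 2 - ((Real.exp (-(M z)) : ℝ) : ℂ) ^ 2))
      rw [hvalc]
      ring
    · show (0 : ℂ) = ((W z : ℝ) : ℂ) * 0
      rw [mul_zero]

end

end Pool.Agent.DL
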