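import Pool.Agent.helper67.DL.SpecL

/-!
# Module dl:FA (MP_4caea3_gt): the algebra of the family
-/

namespace Pool.Agent.DL

open Matrix Complex
open scoped ComplexOrder

lemma FA_rel (t : ℝ) (z : ℂ) : qq t z = 9 * ss t z ^ 2 + (t : ℂ) ^ 2 := by
  unfold qq ss
  linear_combination (-(t : ℂ) ^ 2 * z ^ 2) * I_sq

/-- The same matrices as functions of `s`, `T`. -/
noncomputable def FA_A (s T : ℂ) : Matrix (Fin 3) (Fin 3) ℂ :=
  !![0, (12 * s ^ 2 + T ^ 2) / 2, 2 * s * (8 * s ^ 2 + T ^ 2);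
     1, 0, (12 * s ^ 2 + T ^ 2) / 2;
     0, 1, 0]

/-- The projection as a function of `s`, `T`. -/
noncomputable def FA_P (s T : ℂ) : Matrix (Fin 3) (Fin 3) ℂ :=
  !![(4 * s ^ 2 + T ^ 2) / (2 * T ^ 2), -(4 * s ^ 2 + T ^ 2) * s / T ^ 2,
      -(4 * s ^ 2 + T ^ 2) ^ 2 / (4 * T ^ 2) ;
     2 * s / T ^ 2, -4 * s ^ 2 / T ^ 2, -s * (4 * s ^ 2 + T ^ 2) / T ^ 2;
     -1 / T ^ 2, 2 * s / T ^ 2, (4 * s ^ 2 + T ^ 2) / (2 * T ^ 2)]

lemma FA_Aeq (t : ℝ) (z : ℂ) : AA t z = FA_A (ss t z) t := by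
  unfold AA FA_A
  rw [FA_rel]
  ext i j
  fin_cases i <;> fin_cases j <;> simp <;> ring

lemma FA_Peq (t : ℝ) (z : ℂ) (ht : t ≠ 0) : PP t z = FA_P (ss t z) t := by
  have hT : (t : ℂ) ≠ 0 := by exact_mod_cast ht
  unfold PP FA_P ev cv
  rw [FA_rel]
  ext i j
  fin_cases i <;> fin_cases j <;> simp [vecMulVec_apply] <;> field_simp <;> ring

lemma FA_cvev (t : ℝ) (z : ℂ) (ht : t ≠ 0) : cv t z ⬝ᵥ ev t z = 1 := by
  have hT : (t : ℂ) ≠ 0 := by exact_mod_cast ht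
  unfold ev cv
  rw [FA_rel]
  simp [Fin.sum_univ_three, dotProduct]
  field_simp
  ring

lemma FA_AP (s T : ℂ) (hT : T ≠ 0) : FA_A s T * FA_P s T = (-2 * s) • FA_P s T := by
  unfold FA_P FA_A
  ext i j
  fin_cases i <;> fin_cases j <;> simp [Matrix.mul_apply, Fin.sum_univ_three] <;> field_simp <;> ring

lemma FA_PA (s T : ℂ) (hT : T ≠ 0) : FA_P s T * FA_A s T = (-2 * s) • FA_P s T := by
  unfold FA_P FA_A
  ext i j
  fin_cases i <;> fin_cases j <;> simp [Matrix.mul_apply, Fin.sum_univ_three] <;> field_simp <;> ring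

lemma FA_CC (s T : ℂ) (hT : T ≠ 0) :
    (1 / T ^ 2) • ((FA_A s T - (-2 * s) • (1 : Matrix (Fin 3) (Fin 3) ℂ)) *
      (FA_A s T - (-2 * s) • 1) - (6 * s) • (FA_A s T - (-2 * s) • 1)) = 1 - FA_P s T := by
  unfold FA_P FA_A
  ext i j
  fin_cases i <;> fin_cases j <;>
    simp [Matrix.mul_apply, Fin.sum_univ_three, Matrix.one_apply] <;> field_simp <;> ring

lemma FA_PPf (s T : ℂ) (hT : T ≠ 0) :
    FA_P s T = (-(1 / T ^ 2)) • ((FA_A s T - s • 1) * (FA_A s T - s • 1) - (9 * s ^ 2 + T ^ 2) • 1) := by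
  unfold FA_P FA_A
  ext i j
  fin_cases i <;> fin_cases j <;>
    simp [Matrix.mul_apply, Fin.sum_univ_three, Matrix.one_apply] <;> field_simp <;> ring

lemma FA_dss (t : ℝ) : Differentiable ℂ (ss t) := by
  unfold ss; fun_prop

theorem FA : FA_stmt := by
  intro t z ht
  have hT : (t : ℂ) ≠ 0 := by exact_mod_cast ht
  have hAP := FA_AP (ss t z) t hT
  have hPA := FA_PA (ss t z) t hT
  have hCC := FA_CC (ss t z) t hT
  have hPC : FA_P (ss t z) t * (FA_A (ss t z) t - (-2 * ss t z) • 1) = 0 := by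
    rw [Matrix.mul_sub, hPA, Matrix.mul_smul, Matrix.mul_one, sub_self]
  have hCP : (FA_A (ss t z) t - (-2 * ss t z) • 1) * FA_P (ss t z) t = 0 := by
    rw [Matrix.sub_mul, hAP, Matrix.smul_mul, Matrix.one_mul, sub_self]
  refine ⟨FA_cvev t z ht, ?_, ?_, ?_, ?_, ?_, ?_, ?_, ?_⟩
  · rw [FA_Aeq, FA_Peq t z ht]; exact hAP
  · rw [FA_Aeq, FA_Peq t z ht]; exact hPA
  · unfold GG
    rw [FA_Aeq, FA_Peq t z ht]
    rw [Matrix.smul_mul, Matrix.sub_mul, Matrix.smul_mul, Matrix.sub_mul 1, hPC, sub_zero,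
      Matrix.one_mul]
    exact hCC
  · unfold GG
    rw [FA_Aeq, FA_Peq t z ht]
    rw [Matrix.mul_smul, Matrix.mul_sub, Matrix.mul_smul, Matrix.mul_sub _ 1, hCP, sub_zero,
      Matrix.mul_one]
    exact hCC
  · rw [FA_Aeq, FA_Peq t z ht, FA_rel]
    exact FA_PPf (ss t z) t hT
  · rw [FA_Aeq]
    simp [FA_A, Matrix.trace, Fin.sum_univ_three]
  · intro i j
    have h := FA_dss t
    have e : (fun z => AA t z i j) = fun z => FA_A (ss t z) t i j := by
      funext w; rw [FA_Aeq]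
    rw [e]
    apply Differentiable.differentiableOn
    unfold FA_A
    fin_cases i <;> fin_cases j <;> simp <;> fun_prop
  · intro i j
    have h := FA_dss t
    have e : (fun z => PP t z i j) = fun z => FA_P (ss t z) t i j := by
      funext w; rw [FA_Peq t w ht]
    rw [e]
    apply Differentiable.differentiableOn
    unfold FA_P
    fin_cases i <;> fin_cases j <;> simp <;> fun_prop (disch := simp [hT])

end Pool.Agent.DL
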