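import Pool.Agent.helper67.DL.SpecX

/-!
# Module dl:X02 (MP_4caea3_gt): the roots `r2`, `r4`
-/

namespace Pool.Agent.DL

open Matrix Complex
open scoped ComplexOrder Manifold ContDiff

lemma X02_sq_slit (v : ℂ) (h : 0 < v.re) : v ^ 2 ∈ slitPlane := by
  rw [mem_slitPlane_iff, sq, mul_re, mul_im]
  by_cases h0 : v.im = 0
  · left; rw [h0]; nlinarith
  · right
    have : v.re * v.im + v.im * v.re = 2 * (v.re * v.im) := by ring
    rw [this]
    exact mul_ne_zero two_ne_zero (mul_ne_zero h.ne' h0)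

lemma X02_form (w : ℂ) (hw : w ∈ slitPlane) (n : ℕ) :
    (w ^ ((n : ℂ)⁻¹)).re = Real.exp (Real.log ‖w‖ / n) * Real.cos (w.arg / n) ∧
    (w ^ ((n : ℂ)⁻¹)).im = Real.exp (Real.log ‖w‖ / n) * Real.sin (w.arg / n) := by
  have hw0 : w ≠ 0 := slitPlane_ne_zero hw
  rw [cpow_def_of_ne_zero hw0, exp_re, exp_im]
  have h : (n : ℂ)⁻¹ = (((n : ℝ)⁻¹ : ℝ) : ℂ) := by push_cast; rfl
  have e1 : (log w * (n : ℂ)⁻¹).re = Real.log ‖w‖ / n := by
    rw [h, re_mul_ofReal, log_re, div_eq_mul_inv]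
  have e2 : (log w * (n : ℂ)⁻¹).im = w.arg / n := by
    rw [h, im_mul_ofReal, log_im, div_eq_mul_inv]
  rw [e1, e2]
  exact ⟨rfl, rfl⟩

lemma X02_arg (w : ℂ) (hw : w ∈ slitPlane) : |w.arg| < Real.pi := by
  rw [mem_slitPlane_iff_arg] at hw
  rw [abs_lt]
  exact ⟨neg_pi_lt_arg w, lt_of_le_of_ne (arg_le_pi w) hw.1⟩

lemma X02_r2 (w : ℂ) (hw : w ∈ slitPlane) : r2 w ^ 2 = w ∧ 0 < (r2 w).re := by
  refine ⟨cpow_nat_inv_pow w two_ne_zero, ?_⟩
  have h := (X02_form w hw 2).1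
  unfold r2
  rw [h]
  apply mul_pos (Real.exp_pos _)
  have h1 := abs_lt.mp (X02_arg w hw)
  apply Real.cos_pos_of_mem_Ioo
  push_cast
  constructor
  · linarith [h1.1]
  · linarith [h1.2]

lemma X02_r4 (w : ℂ) (hw : w ∈ slitPlane) : r4 w ^ 4 = w ∧ |(r4 w).im| < (r4 w).re := by
  refine ⟨cpow_nat_inv_pow w four_ne_zero, ?_⟩
  obtain ⟨h, h'⟩ := X02_form w hw 4
  unfold r4
  rw [h, h', abs_mul, abs_of_pos (Real.exp_pos _)]
  apply mul_lt_mul_of_pos_left _ (Real.exp_pos _)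
  have h1 := abs_lt.mp (X02_arg w hw)
  push_cast
  have hc : 0 < Real.cos (w.arg / 4) := by
    apply Real.cos_pos_of_mem_Ioo
    constructor
    · linarith [h1.1, Real.pi_pos]
    · linarith [h1.2, Real.pi_pos]
  have h2 : 0 < Real.cos (2 * (w.arg / 4)) := by
    apply Real.cos_pos_of_mem_Ioo
    constructor
    · linarith [h1.1]
    · linarith [h1.2]
  rw [Real.cos_two_mul'] at h2
  exact abs_lt_of_sq_lt_sq (by linarith) hc.le

lemma X02_uniq2 (r v : ℂ) (hr : 0 < r.re) (hv : 0 < v.re) (h : r ^ 2 = v ^ 2) : r = v := by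
  rcases sq_eq_sq_iff_eq_or_eq_neg.mp h with h1 | h1
  · exact h1
  · exfalso
    rw [h1, neg_re] at hr
    linarith

lemma X02_re2 (v : ℂ) (h : |v.im| < v.re) : 0 < v.re ∧ 0 < (v ^ 2).re := by
  have h0 : 0 < v.re := lt_of_le_of_lt (abs_nonneg _) h
  refine ⟨h0, ?_⟩
  rw [sq, mul_re]
  have := abs_lt.mp h
  nlinarith [this.1, this.2]

theorem X02 : X02_stmt := by
  refine ⟨X02_r2, ?_, X02_r4, ?_, ?_, ?_⟩
  · intro v hv
    have hs := X02_sq_slit v hv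
    obtain ⟨h1, h2⟩ := X02_r2 _ hs
    exact ⟨hs, X02_uniq2 _ _ h2 hv h1⟩
  · intro v hv
    obtain ⟨hv1, hv2⟩ := X02_re2 v hv
    have hs : v ^ 4 ∈ slitPlane := by
      have := X02_sq_slit (v ^ 2) hv2
      rwa [← pow_mul] at this
    obtain ⟨h1, h2⟩ := X02_r4 _ hs
    obtain ⟨hr1, hr2⟩ := X02_re2 _ h2
    refine ⟨hs, ?_⟩
    apply X02_uniq2 _ _ hr1 hv1
    apply X02_uniq2 _ _ hr2 hv2
    rw [← pow_mul, ← pow_mul]
    exact h1
  · intro w hw
    exact (differentiableAt_id.cpow (differentiableAt_const _) hw).differentiableWithinAt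
  · intro w hw
    exact (differentiableAt_id.cpow (differentiableAt_const _) hw).differentiableWithinAt

end Pool.Agent.DL
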