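import Pool.Agent.helper67.DL.SpecX

/-!
# Module dl:X05 (MP_4caea3_gt): the charts `E d`
-/

namespace Pool.Agent.DL

open Matrix Complex
open scoped ComplexOrder Manifold ContDiff

noncomputable section

lemma X05_cases (d : ℂ) (hd : d ^ 8 = 1) : d ^ 4 = 1 ∨ d ^ 4 = -1 := by
  have h : (d ^ 4 - 1) * (d ^ 4 + 1) = 0 := by linear_combination hd
  rcases mul_eq_zero.mp h with h | h
  · left; linear_combination h
  · right; linear_combination h

lemma X05_ne (d : ℂ) (hd : d ^ 8 = 1) : d ≠ 0 := by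
  rintro rfl
  norm_num at hd

lemma X05_m1 : (-1 : ℂ) ∉ slitPlane := by
  rw [mem_slitPlane_iff]
  simp

lemma X05_mm_add (y : ℂ) (h : 1 + y ^ 2 ≠ 0) : (1 + mm (y ^ 2)) * (1 + y ^ 2) = 2 := by
  unfold mm
  field_simp
  ring

/-- The inverse map lands in the surface. -/
lemma X05_rel (h2 : X02_stmt) (d : ℂ) (hd : d ^ 8 = 1) (y : ℂ) (hy : y ∈ eT) :
    RelX (ei d y) := by
  obtain ⟨hy1, hy2⟩ := hy
  have hr := (h2.2.2.1 _ hy2).1
  have hm := X05_mm_add y hy1
  unfold ei
  rcases X05_cases d hd with h4 | h4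
  · rw [if_pos h4]
    refine Or.inl ⟨_, _, rfl, ?_⟩
    rw [mul_pow, h4, hr, one_mul]
    exact hm
  · have hne : ¬ d ^ 4 = 1 := by
      rw [h4]; norm_num
    rw [if_neg hne]
    unfold ic
    by_cases h0 : y = 0
    · rw [if_pos h0]
      refine Or.inr (Or.inr ⟨_, rfl, ?_⟩)
      rw [mul_pow, h4, hr, h0]
      unfold mm
      norm_num
    · rw [if_neg h0]
      refine Or.inl ⟨_, _, rfl, ?_⟩
      rw [mul_pow, h4, hr]
      unfold mm
      field_simp
      ring

/-- Points of the sector. -/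
lemma X05_src (h2 : X02_stmt) (d : ℂ) (hd : d ^ 8 = 1) (p : P1 × P1) (hp : RelX p)
    (hne : p.1 ≠ OnePoint.infty) (hs : |(fv p.1 / d).im| < (fv p.1 / d).re) :
    (d ^ 4 = 1 → p.2 ≠ OnePoint.infty ∧ fv p.2 ∈ eT ∧ ei d (fv p.2) = p) ∧
    (d ^ 4 = -1 → p.2 ≠ OnePoint.some 0 ∧ iv p.2 ∈ eT ∧ ei d (iv p.2) = p) := by
  have hd0 := X05_ne d hd
  obtain ⟨hv1, hv2⟩ := h2.2.2.2.1 _ hs
  have hdd : ∀ z : ℂ, (z / d) ^ 4 = d ^ 4 * z ^ 4 := by
    intro z
    rw [div_pow]
    field_simp
    linear_combination (-z ^ 4) * hd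
  rw [hdd] at hv1 hv2
  rcases hp with ⟨z, y, rfl, h⟩ | ⟨y, rfl, h⟩ | ⟨z, rfl, h⟩
  · have f1 : fv (OnePoint.some z, OnePoint.some y).1 = z := rfl
    have f2 : fv (OnePoint.some z, OnePoint.some y).2 = y := rfl
    have f3 : iv (OnePoint.some z, OnePoint.some y).2 = y⁻¹ := rfl
    rw [f1] at hv1 hv2
    rw [f2, f3]
    have hy : 1 + y ^ 2 ≠ 0 := by
      intro h0
      rw [h0, mul_zero] at h
      norm_num at h
    have hmm : mm (y ^ 2) = z ^ 4 := by
      unfold mm
      rw [div_eq_iff hy]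
      linear_combination (-1 : ℂ) * h
    constructor
    · intro h4
      rw [h4, one_mul] at hv1 hv2
      refine ⟨OnePoint.coe_ne_infty _, ⟨hy, hmm ▸ hv1⟩, ?_⟩
      unfold ei
      rw [if_pos h4, hmm, hv2, mul_div_cancel₀ _ hd0]
    · intro h4
      have hne4 : ¬ d ^ 4 = 1 := by
        rw [h4]; norm_num
      rw [h4] at hv1 hv2
      have hy0 : y ≠ 0 := by
        rintro rfl
        have hz : z ^ 4 = 1 := by linear_combination h
        rw [hz] at hv1
        rw [mul_one] at hv1
        exact X05_m1 hv1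
      have hy' : 1 + (y⁻¹) ^ 2 ≠ 0 := by
        intro h0
        apply hy
        have : (1 + (y⁻¹) ^ 2) * y ^ 2 = 0 := by rw [h0, zero_mul]
        field_simp at this
        linear_combination this
      have hmm' : mm ((y⁻¹) ^ 2) = -1 * z ^ 4 := by
        unfold mm
        rw [div_eq_iff hy']
        field_simp
        linear_combination h
      refine ⟨?_, ⟨hy', hmm' ▸ hv1⟩, ?_⟩
      · intro h0
        exact hy0 (OnePoint.coe_injective h0)
      · unfold ei ic
        rw [if_neg hne4, if_neg (inv_ne_zero hy0), inv_inv, hmm', hv2, mul_div_cancel₀ _ hd0]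
  · exact absurd rfl hne
  · have f1 : fv (OnePoint.some z, (OnePoint.infty : P1)).1 = z := rfl
    have f3 : iv (OnePoint.some z, (OnePoint.infty : P1)).2 = 0 := rfl
    have hz : z ^ 4 = -1 := by linear_combination h
    rw [f1, hz] at hv1 hv2
    rw [f3]
    constructor
    · intro h4
      rw [h4, one_mul] at hv1
      exact absurd hv1 X05_m1
    · intro h4
      have hne4 : ¬ d ^ 4 = 1 := by
        rw [h4]; norm_num
      have hmm : mm ((0 : ℂ) ^ 2) = d ^ 4 * -1 := by
        rw [h4]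
        unfold mm
        norm_num
      refine ⟨OnePoint.infty_ne_coe _, ⟨by norm_num, hmm ▸ hv1⟩, ?_⟩
      unfold ei ic
      rw [if_neg hne4, if_pos rfl, hmm, hv2, mul_div_cancel₀ _ hd0]

lemma X05_mmc : ContinuousOn (fun y : ℂ => mm (y ^ 2)) {y | 1 + y ^ 2 ≠ 0} := by
  unfold mm
  apply ContinuousOn.div
  · fun_prop
  · fun_prop
  · intro y hy; exact hy

lemma X05_open_dom : IsOpen {y : ℂ | 1 + y ^ 2 ≠ 0} :=
  isOpen_ne_fun (by fun_prop) continuous_const

lemma X05_eT_eq : eT = {y : ℂ | 1 + y ^ 2 ≠ 0} ∩ (fun y : ℂ => mm (y ^ 2)) ⁻¹' slitPlane := rfl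

lemma X05_eT_open : IsOpen eT := by
  rw [X05_eT_eq]
  exact X05_mmc.isOpen_inter_preimage X05_open_dom isOpen_slitPlane

lemma X05_eS_open (h1 : X01_stmt) (d : ℂ) : IsOpen (eS d) := by
  have hA : IsOpen ({OnePoint.infty}ᶜ ∩ fv ⁻¹' {v : ℂ | |(v / d).im| < (v / d).re}) := by
    apply h1.1.isOpen_inter_preimage isOpen_compl_singleton
    apply isOpen_lt
    · exact (continuous_im.comp (continuous_id.div_const d)).abs
    · exact continuous_re.comp (continuous_id.div_const d)
  have hc : Continuous (fun p : XT => p.1.1) := continuous_fst.comp continuous_subtype_val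
  exact hA.preimage hc

lemma X05_ei_cont (h1 : X01_stmt) (h2 : X02_stmt) (d : ℂ) : ContinuousOn (ei d) eT := by
  unfold ei
  apply ContinuousOn.prodMk
  · apply OnePoint.continuous_coe.comp_continuousOn
    apply continuousOn_const.mul
    have hr : ContinuousOn r4 slitPlane := h2.2.2.2.2.2.continuousOn
    exact hr.comp (X05_mmc.mono fun y hy => hy.1) (fun y hy => hy.2)
  · by_cases h4 : d ^ 4 = 1
    · simp only [if_pos h4]
      exact OnePoint.continuous_coe.continuousOn
    · simp only [if_neg h4]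
      exact h1.2.2.1.continuousOn

open Classical in
/-- The inverse map. -/
def X05_inv (d y : ℂ) : XT := if h : RelX (ei d y) then ⟨ei d y, h⟩ else x0X

lemma X05_inv_val (h2 : X02_stmt) (d : ℂ) (hd : d ^ 8 = 1) (y : ℂ) (hy : y ∈ eT) :
    (X05_inv d y).1 = ei d y := by
  unfold X05_inv
  rw [dif_pos (X05_rel h2 d hd y hy)]

theorem X05 (h1 : X01_stmt) (h2 : X02_stmt) : X05_stmt := by
  intro d hd
  have hd0 := X05_ne d hd
  have hex : ∀ p : XT, p ∈ eS d → ex d p ∈ eT ∧ ei d (ex d p) = p.1 := by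
    intro p hp
    obtain ⟨c1, c2⟩ := X05_src h2 d hd p.1 p.2 hp.1 hp.2
    unfold ex
    rcases X05_cases d hd with h4 | h4
    · rw [if_pos h4]
      exact ⟨(c1 h4).2.1, (c1 h4).2.2⟩
    · have hne4 : ¬ d ^ 4 = 1 := by
        rw [h4]; norm_num
      rw [if_neg hne4]
      exact ⟨(c2 h4).2.1, (c2 h4).2.2⟩
  have htgt : ∀ y ∈ eT, X05_inv d y ∈ eS d := by
    intro y hy
    have hv := X05_inv_val h2 d hd y hy
    have e1 : (X05_inv d y).1.1 = OnePoint.some (d * r4 (mm (y ^ 2))) := by rw [hv]; rfl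
    refine ⟨?_, ?_⟩
    · rw [e1]; exact OnePoint.coe_ne_infty _
    · rw [e1]
      have f1 : fv (OnePoint.some (d * r4 (mm (y ^ 2)))) = d * r4 (mm (y ^ 2)) := rfl
      rw [f1, mul_div_cancel_left₀ _ hd0]
      exact (h2.2.2.1 _ hy.2).2
  have hright : ∀ y ∈ eT, ex d (X05_inv d y) = y := by
    intro y hy
    have hv := X05_inv_val h2 d hd y hy
    unfold ex
    by_cases h4 : d ^ 4 = 1
    · rw [if_pos h4]
      unfold fY
      rw [hv]
      unfold ei
      rw [if_pos h4]
      rfl
    · rw [if_neg h4]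
      unfold fV
      rw [hv]
      unfold ei
      rw [if_neg h4]
      exact (h1.2.2.2.2.1 y).2.2.1
  have hleft : ∀ p ∈ eS d, X05_inv d (ex d p) = p := by
    intro p hp
    obtain ⟨a1, a2⟩ := hex p hp
    apply Subtype.ext
    rw [X05_inv_val h2 d hd _ a1, a2]
  let e : OpenPartialHomeomorph XT ℂ :=
    { toFun := ex d
      invFun := X05_inv d
      source := eS d
      target := eT
      map_source' := fun p hp => (hex p hp).1
      map_target' := fun y hy => htgt y hy
      left_inv' := fun p hp => hleft p hp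
      right_inv' := fun y hy => hright y hy
      open_source := X05_eS_open h1 d
      open_target := X05_eT_open
      continuousOn_toFun := by
        have hc : Continuous (fun p : XT => p.1.2) := continuous_snd.comp continuous_subtype_val
        rcases X05_cases d hd with h4 | h4
        · have : ex d = fun p => fv p.1.2 := by
            funext p; unfold ex; rw [if_pos h4]; rfl
          rw [this]
          exact h1.1.comp hc.continuousOn
            (fun p hp => ((X05_src h2 d hd p.1 p.2 hp.1 hp.2).1 h4).1)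
        · have hne4 : ¬ d ^ 4 = 1 := by
            rw [h4]; norm_num
          have : ex d = fun p => iv p.1.2 := by
            funext p; unfold ex; rw [if_neg hne4]; rfl
          rw [this]
          exact h1.2.1.comp hc.continuousOn
            (fun p hp => ((X05_src h2 d hd p.1 p.2 hp.1 hp.2).2 h4).1)
      continuousOn_invFun := by
        rw [Topology.IsEmbedding.subtypeVal.isInducing.continuousOn_iff]
        exact (X05_ei_cont h1 h2 d).congr fun y hy => X05_inv_val h2 d hd y hy }
  exact ⟨e, rfl, rfl, fun p _ => rfl, fun y hy => X05_inv_val h2 d hd y hy⟩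

end

end Pool.Agent.DL
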